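import Pool.Agent.H27.NB2

set_option autoImplicit false

namespace Pool.Agent.Results.MP_879d0a_co.Min

open Finset Pool.Agent.H27.NB Filter
open scoped Matrix

section
variable {V : Type} [Fintype V] [DecidableEq V] (G : SimpleGraph V) [DecidableRel G.Adj]

/-- non-backtracking matrix on oriented edges -/
def B : Matrix G.Dart G.Dart ℂ := Matrix.of fun e f => if e.snd = f.fst ∧ f ≠ e.symm then 1 else 0

/-- its spectral radius (the Perron eigenvalue) -/
noncomputable def rho : ENNReal := spectralRadius ℂ (B G)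

/-- connected, all degrees 2 or 3, exactly half of the vertices of degree 2 -/
def In23 : Prop := G.Connected ∧ (∀ v, G.degree v = 2 ∨ G.degree v = 3) ∧
  2 * (univ.filter fun v => G.degree v = 2).card = Fintype.card V

lemma row {M : Type} [AddCommMonoid M] (e : G.Dart) (y : V → V → M) :
    ∑ f : G.Dart, (if e.snd = f.fst ∧ f ≠ e.symm then y f.fst f.snd else 0) =
      ∑ w ∈ (G.neighborFinset e.snd).erase e.fst, y e.snd w := by
  rw [← sum_filter]
  refine sum_bij (fun f _ => f.snd) (fun f hf => ?_) (fun f hf g hg h => ?_) (fun w hw => ?_)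
    fun f hf => by rw [(mem_filter.1 hf).2.1]
  · obtain ⟨-, h1, h2⟩ := mem_filter.1 hf
    refine mem_erase.2 ⟨fun h => h2 ?_, by rw [SimpleGraph.mem_neighborFinset, h1]; exact f.adj⟩
    exact SimpleGraph.Dart.ext _ _ (Prod.ext h1.symm h)
  · exact SimpleGraph.Dart.ext _ _
      (Prod.ext ((mem_filter.1 hf).2.1.symm.trans (mem_filter.1 hg).2.1) h)
  · obtain ⟨h1, h2⟩ := mem_erase.1 hw
    exact ⟨⟨(e.snd, w), (G.mem_neighborFinset _ _).1 h2⟩, mem_filter.2 ⟨mem_univ _, rfl,
      fun h => h1 (congrArg (·.snd) h)⟩, rfl⟩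

lemma row_pow (r : ℕ) (e : G.Dart) : ∑ f, (B G ^ r) e f = N G r e.fst e.snd := by
  induction r generalizing e with
  | zero => simp [N, Matrix.one_apply]
  | succ r ih =>
    simp only [pow_succ', Matrix.mul_apply]
    rw [sum_comm]
    simp only [← mul_sum, ih]
    simp only [B, Matrix.of_apply, ite_mul, one_mul, zero_mul, N, Nat.cast_sum]
    exact row G e fun u v => (N G r u v : ℂ)

open scoped Matrix.Norms.Operator in
lemma lower {x : ℝ} (hx : x ^ 3 - x - 2 = 0) (h : In23 G) : ENNReal.ofReal x ≤ rho G := by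
  have := h.1.nonempty
  have h0 : 0 ≤ x := by linarith [(x_bd hx).1]
  refine le_trans (le_limsup_of_frequently_le (Eventually.frequently ?_))
    (spectrum.limsup_pow_nnnorm_pow_one_div_le_spectralRadius (B G))
  filter_upwards [eventually_gt_atTop 0] with r hr
  obtain ⟨u, v, ha, h1⟩ := growth hx G h.2.1 h.2.2 r
  have h2 : x ^ r ≤ ‖B G ^ r‖ := by
    have h3 := row_pow G r ⟨(u, v), ha.symm⟩
    have h4 : ∑ f, ‖(B G ^ r) ⟨(u, v), ha.symm⟩ f‖₊ ≤ ‖B G ^ r‖₊ := by
      rw [Matrix.linfty_opNNNorm_def]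
      exact le_sup (f := fun e => ∑ f, ‖(B G ^ r) e f‖₊) (mem_univ _)
    have h5 := (nnnorm_sum_le _ _).trans h4
    rw [h3] at h5
    exact h1.trans (by simpa using NNReal.coe_le_coe.2 h5)
  rw [one_div, ENNReal.le_rpow_inv_iff (by exact_mod_cast hr), ENNReal.rpow_natCast,
    ← ENNReal.ofReal_pow h0, ENNReal.ofReal_le_coe]
  exact h2

end

/-- `K₄` minus the edge `{2, 3}` -/
def K : SimpleGraph (Fin 4) where
  Adj u v := u ≠ v ∧ (u < 2 ∨ v < 2)
  symm := ⟨fun _ _ h => ⟨h.1.symm, h.2.symm⟩⟩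
  loopless := ⟨fun _ h => h.1 rfl⟩

instance : DecidableRel K.Adj := fun u v => inferInstanceAs (Decidable (u ≠ v ∧ _))

lemma upper {x : ℝ} (hx : x ^ 3 - x - 2 = 0) : rho K ≤ ENNReal.ofReal x := by
  have h0 := (x_bd hx).1
  refine iSup₂_le fun k hk => ?_
  obtain ⟨f, hf⟩ := (Module.End.hasEigenvalue_iff_mem_spectrum.2
    (Matrix.spectrum_toLin' (B K) ▸ hk)).exists_hasEigenvector
  let y : Fin 4 → Fin 4 → ℝ := fun u v => if v < 2 then (if u < 2 then x ^ 2 - 1 else x) else 1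
  have y0 : ∀ u v, 0 < y u v := fun u v => by simp only [y]; split_ifs <;> nlinarith
  have y1 : ∀ u v, K.Adj u v → ∑ w ∈ (K.neighborFinset v).erase u, y v w = x * y u v := by
    have e : ∀ u v, (K.neighborFinset v).erase u =
      univ.filter fun w => w ≠ u ∧ w ≠ v ∧ (w < 2 ∨ v < 2) := by decide
    intro u v h
    rw [e, sum_filter, Fin.sum_univ_four]
    fin_cases u <;> fin_cases v <;> simp [y, K] at h ⊢ <;> linarith
  obtain ⟨d, hd⟩ := Function.ne_iff.1 hf.2
  obtain ⟨e, -, he⟩ := exists_max_image univ (fun e : K.Dart => ‖f e‖ / y e.fst e.snd) ⟨d, mem_univ _⟩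
  have h1 : 0 < ‖f e‖ / y e.fst e.snd := (div_pos (norm_pos_iff.2 hd) (y0 _ _)).trans_le (he d (mem_univ _))
  set M := ‖f e‖ / y e.fst e.snd with hM
  have h2 := congrFun hf.apply_eq_smul e
  rw [Matrix.toLin'_apply, Matrix.mulVec, dotProduct] at h2
  have h3 : ‖k‖ * ‖f e‖ ≤ ∑ g : K.Dart, (if e.snd = g.fst ∧ g ≠ e.symm then M * y g.fst g.snd else 0) := by
    rw [← norm_mul, ← smul_eq_mul, ← Pi.smul_apply, ← h2]
    refine (norm_sum_le _ _).trans (sum_le_sum fun g _ => ?_)
    simp only [B, Matrix.of_apply]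
    split_ifs
    · rw [one_mul, ← div_le_iff₀ (y0 _ _)]
      exact he g (mem_univ _)
    · simp
  rw [row K e fun u v => M * y u v, ← mul_sum, y1 _ _ e.adj,
    show ‖f e‖ = M * y e.fst e.snd by rw [hM, div_mul_cancel₀ _ (y0 _ _).ne']] at h3
  rw [← ENNReal.ofReal_coe_nnreal]
  refine ENNReal.ofReal_le_ofReal (le_of_mul_le_mul_right ?_ (mul_pos h1 (y0 e.fst e.snd)))
  rw [coe_nnnorm]
  linarith

theorem result (x : ℝ) (hx : x ^ 3 - x - 2 = 0) : In23 K ∧ rho K = ENNReal.ofReal x ∧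
    ∀ (V : Type) [Fintype V] [DecidableEq V] (G : SimpleGraph V) [DecidableRel G.Adj],
      In23 G → rho K ≤ rho G := by
  have h : In23 K := ⟨by decide, by decide, by decide⟩
  exact ⟨h, (upper hx).antisymm (lower K hx h), fun V _ _ G _ hG => (upper hx).trans (lower G hx hG)⟩

end Pool.Agent.Results.MP_879d0a_co.Min
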